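import Pool.Agent.W207.PU.SpecA
import Pool.Agent.H24R2.JP.B1

set_option autoImplicit false

open Complex Filter Topology Set MeasureTheory
open scoped BigOperators

namespace Pool.Agent.W358.PU

open Pool.Agent.H24R2.JP (XX HH Om)
open Pool.Agent.H24R2.DZ (ra NN Gd SC1 SC2 SCount SFar SUnit)
open Pool.Agent.H24R2.JP.B1h (XX_diff XX_neg XX_conj)
open W207.PU

/-- the scales -/
theorem scales {a L : ℝ} (ha : 1 ≤ a) (haL : a ≤ L / 400) :
    ∃ J : ℕ, (∀ j ≤ J, 2 ^ j * a ≤ L / 200) ∧ L / 200 < 2 ^ (J + 1) * a := by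
  have hex : ∃ J : ℕ, L / 200 < 2 ^ (J + 1) * a := by
    obtain ⟨N, hN⟩ := exists_nat_gt (L / 200)
    refine ⟨N, hN.trans_le ?_⟩
    have h1 : (N : ℝ) ≤ 2 ^ (N + 1) := by
      have h2 : N < 2 ^ (N + 1) := (Nat.lt_succ_self N).trans Nat.lt_two_pow_self
      exact_mod_cast h2.le
    have h3 : (0 : ℝ) ≤ 2 ^ (N + 1) := by positivity
    nlinarith
  classical
  refine ⟨Nat.find hex, fun j hj => ?_, Nat.find_spec hex⟩
  rcases Nat.eq_zero_or_pos j with rfl | h
  · rw [pow_zero, one_mul]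
    linarith
  · obtain ⟨i, rfl⟩ : ∃ i, j = i + 1 := ⟨j - 1, by omega⟩
    exact not_lt.1 (Nat.find_min hex (show i < Nat.find hex by omega))

/-- the sum over the scales -/
theorem sumexp {c a : ℝ} (hc : 0 < c) (ha : 1 ≤ a) (J : ℕ) :
    ∑ j ∈ Finset.range (J + 1), Real.exp (-(c * (2 ^ j * a))) ≤
      (1 - Real.exp (-c))⁻¹ * Real.exp (-(c * a)) := by
  have h1 : ∀ j : ℕ, Real.exp (-(c * (2 ^ j * a))) ≤ Real.exp (-c) ^ j * Real.exp (-(c * a)) := by
    intro j
    rw [← Real.exp_nat_mul, ← Real.exp_add, Real.exp_le_exp]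
    have h2 : ((j : ℝ) + 1) ≤ 2 ^ j := by
      have h3 : j + 1 ≤ 2 ^ j := Nat.lt_two_pow_self
      exact_mod_cast h3
    have h4 : ((j : ℝ) + 1) * (c * a) ≤ 2 ^ j * (c * a) :=
      mul_le_mul_of_nonneg_right h2 (by positivity)
    have h5 : (j : ℝ) * c ≤ (j : ℝ) * (c * a) := by
      refine mul_le_mul_of_nonneg_left ?_ (Nat.cast_nonneg j)
      nlinarith
    linarith
  calc ∑ j ∈ Finset.range (J + 1), Real.exp (-(c * (2 ^ j * a)))
      ≤ ∑ j ∈ Finset.range (J + 1), Real.exp (-c) ^ j * Real.exp (-(c * a)) :=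
        Finset.sum_le_sum fun j _ => h1 j
    _ = (∑ j ∈ Finset.range (J + 1), Real.exp (-c) ^ j) * Real.exp (-(c * a)) := by
        rw [Finset.sum_mul]
    _ ≤ _ := by
        refine mul_le_mul_of_nonneg_right ?_ (Real.exp_pos _).le
        have h0 : Real.exp (-c) < 1 := by
          rw [Real.exp_lt_one_iff]
          linarith
        have h2 := hasSum_geometric_of_lt_one (Real.exp_pos (-c)).le h0
        exact sum_le_hasSum _ (fun j _ => pow_nonneg (Real.exp_pos _).le j) h2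

theorem zero_symm {s : ℂ} (h : XX s = 0) : XX (-((starRingEnd ℂ) s)) = 0 := by
  rw [XX_neg, XX_conj, h, map_zero]

/-- zeros with nonnegative real part -/
theorem loc {a η T t L : ℝ} {J : ℕ} (ha : 1 ≤ a) (hL : L = Real.log T) (haL : a ≤ L / 400)
    (hJ : L / 200 < 2 ^ (J + 1) * a)
    (hN : ∀ j ≤ J, NN (2 ^ j * a) η (fun z => XX (I * t + ra T (2 ^ j * a) * z))) {s : ℂ}
    (hs : XX s = 0) (hst : |s.im - t| ≤ ra T a) (h0 : 0 ≤ s.re) (h50 : s.re < 1 / 50) :
    s.re ≤ ra T a := by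
  have hL0 : 0 < L := by linarith
  have hra : ∀ b : ℝ, ra T b = b / (L / 2) := fun b => by rw [hL]; rfl
  have hr : ∀ j : ℕ, ra T (2 ^ j * a) = 2 ^ j * ra T a := by
    intro j
    rw [hra, hra]
    ring
  have hr0 : 0 < ra T a := by
    rw [hra]
    positivity
  have hr1 : ra T a ≤ 1 / 200 := by
    rw [hra, div_le_iff₀ (by positivity)]
    linarith
  have hrJ : 1 / 200 < ra T (2 ^ J * a) := by
    rw [hra, lt_div_iff₀ (by positivity)]
    rw [pow_succ] at hJ
    linarith
  have hn : ‖s - I * t‖ ≤ s.re + |s.im - t| := by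
    have h1 := Complex.norm_le_abs_re_add_abs_im (s - I * t)
    have h2 : (s - I * t).re = s.re := by simp
    have h3 : (s - I * t).im = s.im - t := by simp
    rw [h2, h3, abs_of_nonneg h0] at h1
    exact h1
  have hex : ∃ j : ℕ, ‖s - I * t‖ ≤ 20 * (2 ^ j * ra T a) := by
    refine ⟨J, ?_⟩
    rw [← hr J]
    linarith
  classical
  have hjJ : Nat.find hex ≤ J := Nat.find_min' hex (by
    rw [← hr J]
    linarith)
  have hj := Nat.find_spec hex
  have hmin : ∀ i, i < Nat.find hex → ¬ ‖s - I * t‖ ≤ 20 * (2 ^ i * ra T a) :=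
    fun i hi => Nat.find_min hex hi
  generalize Nat.find hex = j at hjJ hj hmin
  set r := ra T (2 ^ j * a) with hrr
  have hrj : r = 2 ^ j * ra T a := hr j
  have hr00 : 0 < r := by
    rw [hrj]
    positivity
  have hrc : (r : ℂ) ≠ 0 := by
    exact_mod_cast hr00.ne'
  set z : ℂ := (s - I * t) / r with hz
  have hzs : I * t + r * z = s := by
    rw [hz]
    field_simp
    ring
  have hzre : z.re = s.re / r := by
    rw [hz, Complex.div_ofReal_re]
    simp
  have hzn : ‖z‖ = ‖s - I * t‖ / r := by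
    rw [hz, norm_div, Complex.norm_real, Real.norm_eq_abs, abs_of_pos hr00]
  have hz20 : ‖z‖ ≤ 20 := by
    rw [hzn, div_le_iff₀ hr00, hrj]
    exact hj
  have hfar : z.re < 1 / 1000 := by
    by_contra h
    push Not at h
    have h7 := ((hN j hjJ).far z h hz20).1
    apply h7
    rw [← hrr, hzs]
    exact hs
  rcases Nat.eq_zero_or_pos j with hj0 | hj0
  · rw [hzre, div_lt_iff₀ hr00, hrj, hj0, pow_zero, one_mul] at hfar
    linarith
  · exfalso
    obtain ⟨i, rfl⟩ : ∃ i, j = i + 1 := ⟨j - 1, by omega⟩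
    have h1 := not_le.1 (hmin i (by omega))
    have h2 : (1 : ℝ) ≤ 2 ^ i := one_le_pow₀ (by norm_num)
    have h3 : r = 2 * (2 ^ i * ra T a) := by
      rw [hrj, pow_succ]
      ring
    have h4 : ra T a ≤ 2 ^ i * ra T a := by nlinarith
    have h5 : s.re / r < 1 / 1000 := by rwa [← hzre]
    rw [div_lt_iff₀ hr00, h3] at h5
    linarith

theorem good : S_GOOD := by
  intro h1 h2 h3 h4
  obtain ⟨η, C1, hη, hC1, hcount⟩ := h3
  obtain ⟨η1, ε1, hη1, hε1, h2'⟩ := h2 η hη
  obtain ⟨θ, c, C, a0, T0, hθ0, hθ1, hc, hC, ha0, hT0, hbad⟩ := h1 η1 ε1 hη1 hε1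
  obtain ⟨a1, T1, hgood⟩ := h2' θ hθ0 hθ1
  obtain ⟨c', C', T2, hc', hC', hT2, hfar⟩ := h4
  have hexp1 : Real.exp (-c) < 1 := by
    rw [Real.exp_lt_one_iff]
    linarith
  have hg0 : 0 < (1 - Real.exp (-c))⁻¹ := inv_pos.2 (by linarith)
  refine ⟨min c c', C1 + C * (1 - Real.exp (-c))⁻¹ + C', max a0 a1, max T0 (max T1 T2),
    lt_min hc hc', by positivity, ha0.trans (le_max_left _ _), hT0.trans (le_max_left _ _), ?_⟩
  intro T a hT ha haL
  have hTT0 : T0 ≤ T := (le_max_left _ _).trans hT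
  have hTT1 : T1 ≤ T := (le_max_left _ _).trans ((le_max_right _ _).trans hT)
  have hTT2 : T2 ≤ T := (le_max_right _ _).trans ((le_max_right _ _).trans hT)
  have haa0 : a0 ≤ a := (le_max_left _ _).trans ha
  have haa1 : a1 ≤ a := (le_max_right _ _).trans ha
  have ha1 : 1 ≤ a := ha0.trans haa0
  have hTpos : 0 < T := by linarith
  obtain ⟨J, hJ1, hJ2⟩ := scales ha1 haL
  have hge : ∀ j : ℕ, a ≤ 2 ^ j * a := by
    intro j
    have : (1 : ℝ) ≤ 2 ^ j := one_le_pow₀ (by norm_num)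
    nlinarith
  have hra0 : 0 < ra T a := by
    unfold ra
    have : 0 < Real.log T := by linarith
    positivity
  have hra1 : ra T a ≤ 1 / 200 := by
    unfold ra
    rw [div_le_iff₀ (by linarith)]
    linarith
  set bad1 : Set ℝ := ⋃ j ∈ Finset.range (J + 1),
    {t0 : ℝ | T / 2 ≤ t0 ∧ t0 ≤ 3 * T ∧ ¬ Gd θ η1 ε1 T (2 ^ j * a) t0} with hbad1
  set bad2 : Set ℝ := {t : ℝ | T / 2 ≤ t ∧ t ≤ 3 * T ∧
    ∃ z : ℂ, XX z = 0 ∧ 1 / 50 ≤ |z.re| ∧ |z.im - t| ≤ 1} with hbad2
  have hsub : {t : ℝ | T / 2 ≤ t ∧ t ≤ 3 * T ∧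
      ¬ GH (C1 + C * (1 - Real.exp (-c))⁻¹ + C') T a t} ⊆ bad1 ∪ bad2 := by
    rintro t ⟨ht1, ht2, hGH⟩
    by_contra hnot
    rw [mem_union, not_or] at hnot
    obtain ⟨hn1, hn2⟩ := hnot
    apply hGH
    have hG : ∀ j ≤ J, Gd θ η1 ε1 T (2 ^ j * a) t := by
      intro j hj
      by_contra hG
      apply hn1
      rw [hbad1, mem_iUnion₂]
      exact ⟨j, Finset.mem_range.2 (by omega), ht1, ht2, hG⟩
    have hNN : ∀ j ≤ J, NN (2 ^ j * a) η (fun z => XX (I * t + ra T (2 ^ j * a) * z)) :=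
      fun j hj => hgood T (2 ^ j * a) t hTT1 (haa1.trans (hge j)) (hJ1 j hj) ht1 ht2 (hG j hj)
    have h50 : ∀ s : ℂ, XX s = 0 → |s.im - t| ≤ ra T a → |s.re| < 1 / 50 := by
      intro s hs hst
      by_contra h
      push Not at h
      exact hn2 ⟨ht1, ht2, s, hs, h, by linarith⟩
    have hre : ∀ s : ℂ, XX s = 0 → |s.im - t| ≤ ra T a → |s.re| ≤ ra T a := by
      intro s hs hst
      have h5 := h50 s hs hst
      rcases le_total 0 s.re with h0 | h0
      · rw [abs_of_nonneg h0] at h5 ⊢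
        exact loc ha1 rfl haL hJ2 hNN hs hst h0 h5
      · rw [abs_of_nonpos h0] at h5 ⊢
        have h6 := loc ha1 rfl haL hJ2 hNN (zero_symm hs) (s := -((starRingEnd ℂ) s))
          (by simpa using hst) (by simpa using h0) (by simpa using h5)
        simpa using h6
    refine ⟨hre, fun S hS => ?_⟩
    have h6 := hcount a (ra T a) t 0 XX ha1 (by rw [Nat.cast_zero]; linarith) hra0 XX_diff (by
      have := hNN 0 (Nat.zero_le _)
      simpa using this) S (by
      intro s hs
      obtain ⟨h7, h8⟩ := hS s hs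
      refine ⟨?_, by rw [iteratedDeriv_zero]; exact h7⟩
      have h9 := Complex.norm_le_abs_re_add_abs_im (s - I * t)
      have e2 : (s - I * t).re = s.re := by simp
      have e3 : (s - I * t).im = s.im - t := by simp
      rw [e2, e3] at h9
      have h10 := hre s h7 h8
      linarith)
    rw [iteratedDeriv_zero] at h6
    refine h6.trans (mul_le_mul_of_nonneg_right ?_ (by linarith))
    have : 0 ≤ C * (1 - Real.exp (-c))⁻¹ := by positivity
    linarith
  have hm1 : volume bad1 ≤ ENNReal.ofReal (∑ j ∈ Finset.range (J + 1),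
      C * T * Real.exp (-(c * (2 ^ j * a)))) := by
    rw [ENNReal.ofReal_sum_of_nonneg (fun j _ => by positivity)]
    refine (measure_biUnion_finset_le _ _).trans (Finset.sum_le_sum fun j hj => ?_)
    have hj' : j ≤ J := by
      have := Finset.mem_range.1 hj
      omega
    exact hbad T (2 ^ j * a) hTT0 (haa0.trans (hge j)) (hJ1 j hj')
  have hm2 : volume bad2 ≤ ENNReal.ofReal (C' * T ^ (1 - c')) := hfar T hTT2
  have hexp2 : T ^ (1 - c') ≤ T * Real.exp (-(c' * a)) := by
    rw [Real.rpow_sub hTpos, Real.rpow_one, Real.rpow_def_of_pos hTpos, div_eq_mul_inv,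
      ← Real.exp_neg]
    refine mul_le_mul_of_nonneg_left (Real.exp_le_exp.2 ?_) hTpos.le
    have : c' * a ≤ Real.log T * c' := by nlinarith
    linarith
  calc volume {t : ℝ | T / 2 ≤ t ∧ t ≤ 3 * T ∧
      ¬ GH (C1 + C * (1 - Real.exp (-c))⁻¹ + C') T a t}
      ≤ volume (bad1 ∪ bad2) := measure_mono hsub
    _ ≤ volume bad1 + volume bad2 := measure_union_le _ _
    _ ≤ ENNReal.ofReal (∑ j ∈ Finset.range (J + 1),
      C * T * Real.exp (-(c * (2 ^ j * a)))) + ENNReal.ofReal (C' * T ^ (1 - c')) :=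
        add_le_add hm1 hm2
    _ = ENNReal.ofReal ((∑ j ∈ Finset.range (J + 1),
      C * T * Real.exp (-(c * (2 ^ j * a)))) + C' * T ^ (1 - c')) := by
        rw [ENNReal.ofReal_add (Finset.sum_nonneg fun j _ => by positivity) (by positivity)]
    _ ≤ _ := by
        refine ENNReal.ofReal_le_ofReal ?_
        have e1 : Real.exp (-(c * a)) ≤ Real.exp (-(min c c' * a)) := by
          rw [Real.exp_le_exp]
          have := min_le_left c c'
          nlinarith
        have e2 : Real.exp (-(c' * a)) ≤ Real.exp (-(min c c' * a)) := by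
          rw [Real.exp_le_exp]
          have := min_le_right c c'
          nlinarith
        set E := Real.exp (-(min c c' * a)) with hE
        have hE0 : 0 < E := Real.exp_pos _
        have f1 : (∑ j ∈ Finset.range (J + 1), C * T * Real.exp (-(c * (2 ^ j * a)))) ≤
            C * T * ((1 - Real.exp (-c))⁻¹ * E) := by
          rw [← Finset.mul_sum]
          refine mul_le_mul_of_nonneg_left ((sumexp hc ha1 J).trans ?_) (by positivity)
          exact mul_le_mul_of_nonneg_left e1 hg0.le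
        have f2 : C' * T ^ (1 - c') ≤ C' * (T * E) := by
          refine mul_le_mul_of_nonneg_left (hexp2.trans ?_) hC'.le
          exact mul_le_mul_of_nonneg_left e2 hTpos.le
        have f3 : 0 ≤ C1 * T * E := by positivity
        calc _ ≤ C * T * ((1 - Real.exp (-c))⁻¹ * E) + C' * (T * E) := add_le_add f1 f2
          _ ≤ C1 * T * E + (C * T * ((1 - Real.exp (-c))⁻¹ * E) + C' * (T * E)) := by linarith
          _ = _ := by ring

end Pool.Agent.W358.PU
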